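import Mathlib

set_option autoImplicit false

namespace Pool.Agent.ABC3

open Matrix

/-- The basis of `T(Z) = K[t_c : c ∈ ι]/(t_c^2)`: the subsets of `ι`. -/
abbrev St (ι : Type) := ι → Bool

/-- The degree of a basis element. -/
def sdeg {ι : Type} [Fintype ι] [DecidableEq ι] (s : St ι) : ℤ :=
  ((Finset.univ.filter (fun c => s c = true)).card : ℤ)

section mu
variable {K : Type} [Field K] {ι : Type} [Fintype ι] [DecidableEq ι]

/-- Multiplication by the variable `t_c`. -/
def xc (K : Type) [Field K] {ι : Type} [Fintype ι] [DecidableEq ι] (c : ι) :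
    Matrix (St ι) (St ι) K :=
  fun s s' => if s' c = false ∧ s = Function.update s' c true then 1 else 0

/-- Multiplication by `Σ_c w_c t_c`. -/
def mu : (ι → K) →ₗ[K] Matrix (St ι) (St ι) K where
  toFun w := ∑ c, w c • xc K c
  map_add' := by intro v w; simp [add_smul, Finset.sum_add_distrib]
  map_smul' := by intro a w; simp [mul_smul, Finset.smul_sum]

theorem mu_def (w : ι → K) : mu w = ∑ c, w c • xc K c := rfl

theorem xc_comm (c d : ι) : xc K c * xc K d = xc K d * xc K c := by
  ext s s'
  simp only [Matrix.mul_apply, xc]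
  rcases eq_or_ne c d with rfl | hcd
  · rfl
  · have key : ∀ (a b : ι), a ≠ b → (∑ j : St ι, ((if j a = false ∧ s = Function.update j a true then (1:K) else 0) *
        (if s' b = false ∧ j = Function.update s' b true then (1:K) else 0))) =
        if s' a = false ∧ s' b = false ∧ s = Function.update (Function.update s' b true) a true then 1 else 0 := by
      intro a b hab
      rw [Finset.sum_eq_single (Function.update s' b true)]
      · rw [Function.update_of_ne hab]
        by_cases h1 : s' a = false <;> by_cases h2 : s' b = false <;>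
          by_cases h3 : s = Function.update (Function.update s' b true) a true <;> simp [h1, h2, h3]
      · intro j _ hj
        simp [hj]
      · intro h; exact absurd (Finset.mem_univ _) h
    rw [key c d hcd, key d c hcd.symm, Function.update_comm hcd.symm]
    congr 1
    apply propext
    tauto

theorem xc_sq (c : ι) : xc K c * xc K c = 0 := by
  ext s s'
  simp only [Matrix.mul_apply, xc, Matrix.zero_apply]
  apply Finset.sum_eq_zero
  intro j _
  by_cases h : s' c = false ∧ j = Function.update s' c true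
  · have : ¬ (j c = false ∧ s = Function.update j c true) := by
      rintro ⟨h1, _⟩
      rw [h.2] at h1
      simp at h1
    simp [this]
  · simp [h]

theorem mu_comm (v w : ι → K) : mu v * mu w = mu w * mu v := by
  rw [mu_def, mu_def, Finset.sum_mul_sum, Finset.sum_mul_sum, Finset.sum_comm]
  refine Finset.sum_congr rfl (fun c _ => Finset.sum_congr rfl (fun d _ => ?_))
  rw [smul_mul_smul_comm, smul_mul_smul_comm, xc_comm, mul_comm (w c)]

theorem mu_cube [CharP K 3] (w : ι → K) : mu w * mu w * mu w = 0 := by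
  have hfact : Fact (Nat.Prime 3) := ⟨Nat.prime_three⟩
  have hch : CharP (Matrix (St ι) (St ι) K) 3 := by infer_instance
  have key : ∀ S : Finset ι, (∑ c ∈ S, w c • xc K c) ^ 3 = 0 := by
    intro S
    induction S using Finset.induction_on with
    | empty => simp
    | insert a S ha ih =>
      rw [Finset.sum_insert ha]
      have hc : Commute (w a • xc K a) (∑ c ∈ S, w c • xc K c) := by
        apply Commute.sum_right
        intro i _
        show (w a • xc K a) * (w i • xc K i) = (w i • xc K i) * (w a • xc K a)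
        rw [smul_mul_smul_comm, smul_mul_smul_comm, xc_comm, mul_comm (w a)]
      rw [add_pow_char_of_commute 3 hc, ih, add_zero, pow_succ, pow_two, smul_mul_smul_comm, xc_sq]
      simp
  have h := key Finset.univ
  rw [← mu_def] at h
  calc mu w * mu w * mu w = mu w ^ 3 := by noncomm_ring
    _ = 0 := h

theorem mu_deg (w : ι → K) (s s' : St ι) (h : mu w s s' ≠ 0) : sdeg s = sdeg s' + 1 := by
  rw [mu_def, Matrix.sum_apply] at h
  obtain ⟨c, _, hc⟩ := Finset.exists_ne_zero_of_sum_ne_zero h
  simp only [Matrix.smul_apply, xc] at hc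
  have hcc : s' c = false ∧ s = Function.update s' c true := by
    by_contra hn
    simp [hn] at hc
  obtain ⟨h1, rfl⟩ := hcc
  unfold sdeg
  have : (Finset.univ.filter (fun d => Function.update s' c true d = true)) =
      insert c (Finset.univ.filter (fun d => s' d = true)) := by
    ext d
    by_cases hd : d = c
    · subst hd; simp
    · simp [Function.update_of_ne hd, hd]
  rw [this, Finset.card_insert_of_notMem (by simp [h1])]
  push_cast
  ring

end mu

/-- A graded module over `R(Q) = Sym(Q)/(q^3)` with a homogeneous basis `B`. -/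
structure Sys (K Q B : Type) [Field K] [AddCommGroup Q] [Module K Q] [Fintype B] [DecidableEq B] where
  deg : B → ℤ
  act : Q →ₗ[K] Matrix B B K
  comm : ∀ p q, act p * act q = act q * act p
  cube : ∀ q, act q * act q * act q = 0
  hdeg : ∀ q s s', act q s s' ≠ 0 → deg s = deg s' + 1

section defs
variable {K Q B : Type} [Field K] [AddCommGroup Q] [Module K Q] [Fintype B] [DecidableEq B]

/-- `M` is homogeneous of degree `k`. -/
def HasDeg (deg : B → ℤ) (k : ℤ) (M : Matrix B B K) : Prop :=
  ∀ s s', M s s' ≠ 0 → deg s = deg s' + k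

/-- `v` is homogeneous of degree `d`. -/
def HomV (deg : B → ℤ) (d : ℤ) (v : B → K) : Prop := ∀ s, v s ≠ 0 → deg s = d

/-- `M` commutes with the action of `P`. -/
def Com (S : Sys K Q B) (P : Submodule K Q) (M : Matrix B B K) : Prop :=
  ∀ p ∈ P, S.act p * M = M * S.act p

/-- The relative trace. -/
def Tr (S : Sys K Q B) (q : Q) (g : Matrix B B K) : Matrix B B K :=
  S.act q * S.act q * g + S.act q * g * S.act q + g * S.act q * S.act q

/-- Every endomorphism of degree 0 is a scalar plus relative traces. -/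
def EP (S : Sys K Q B) {ι : Type} [Fintype ι] (ev : ι → (Q →ₗ[K] K)) : Prop :=
  ∀ f, HasDeg S.deg 0 f → Com S ⊤ f → ∃ (a : K) (g : ι → Matrix B B K),
    (∀ c, HasDeg S.deg (-2) (g c) ∧ Com S (LinearMap.ker (ev c)) (g c)) ∧
    ∀ q : ι → Q, (∀ c, ev c (q c) = 1) →
      f = a • (1 : Matrix B B K) + ∑ c, Tr S (q c) (g c)

/-- Multiplicativity of the trace on endomorphisms of degree 0. -/
def Chi (S : Sys K Q B) : Prop :=
  Matrix.trace (1 : Matrix B B K) ≠ 0 ∧
  ∀ f f', HasDeg S.deg 0 f → Com S ⊤ f → HasDeg S.deg 0 f' → Com S ⊤ f' →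
    Matrix.trace (f * f') * Matrix.trace (1 : Matrix B B K) = Matrix.trace f * Matrix.trace f'

/-- `e` is the projection onto the cap. -/
def IsCap (S : Sys K Q B) (e : Matrix B B K) : Prop :=
  e * e = e ∧ HasDeg S.deg 0 e ∧ Com S ⊤ e ∧ Matrix.trace e ≠ 0 ∧
  ∀ f, HasDeg S.deg 0 f → Com S ⊤ f → Matrix.trace f ≠ 0 →
    ∃ α β : Matrix B B K, (HasDeg S.deg 0 α ∧ Com S ⊤ α) ∧ (HasDeg S.deg 0 β ∧ Com S ⊤ β) ∧
      α * f * β = e

/-- The part of degree `d` of the image of `e`. -/
def Cd (S : Sys K Q B) (e : Matrix B B K) (d : ℤ) : Submodule K (B → K) where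
  carrier := {v | HomV S.deg d v ∧ e.mulVec v = v}
  add_mem' := by
    rintro v w ⟨hv, hv'⟩ ⟨hw, hw'⟩
    refine ⟨fun s hs => ?_, by rw [Matrix.mulVec_add, hv', hw']⟩
    by_cases h : v s = 0
    · exact hw s (fun h' => hs (by simp [h, h']))
    · exact hv s h
  zero_mem' := ⟨fun s hs => absurd rfl hs, Matrix.mulVec_zero _⟩
  smul_mem' := by
    rintro a v ⟨hv, hv'⟩
    refine ⟨fun s hs => hv s (fun h' => hs (by simp [h'])), by rw [Matrix.mulVec_smul, hv']⟩

/-- Multiplication `P ⊗ C → T`. -/
noncomputable def mulMap (S : Sys K Q B) (P : Submodule K Q) (C : Submodule K (B → K)) :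
    TensorProduct K P C →ₗ[K] (B → K) :=
  TensorProduct.lift (LinearMap.mk₂ K (fun (p : P) (v : C) => (S.act (p : Q)).mulVec (v : B → K))
    (by intro p p' v; simp [Matrix.add_mulVec])
    (by intro a p v; simp [Matrix.smul_mulVec])
    (by intro p v v'; simp [Matrix.mulVec_add])
    (by intro a p v; simp [Matrix.mulVec_smul]))

theorem mulMap_tmul (S : Sys K Q B) (P : Submodule K Q) (C : Submodule K (B → K)) (p : P) (v : C) :
    mulMap S P C (p ⊗ₜ[K] v) = (S.act (p : Q)).mulVec (v : B → K) := by
  simp [mulMap]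

/-- All products of `2 dim P` elements of `P` kill `v`. -/
def AnnP (S : Sys K Q B) (P : Submodule K Q) (v : B → K) : Prop :=
  ∀ l : List Q, (∀ p ∈ l, p ∈ P) → l.length = 2 * Module.finrank K P →
    ((l.map (fun p => S.act p)).prod).mulVec v = 0

/-- The low degree part of the cap vanishes. -/
def LowA (S : Sys K Q B) (e : Matrix B B K) (t : ℤ) : Prop :=
  ∀ d : ℤ, 2 * d < t → ∀ v, HomV S.deg d v → e.mulVec v = v → v = 0

/-- No linear relation in the bottom degree of the cap. -/
def LowB (S : Sys K Q B) (e : Matrix B B K) (t : ℤ) : Prop :=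
  ∀ d : ℤ, 2 * d = t → Function.Injective (mulMap S ⊤ (Cd S e d))

/-- In degree `D` the identity of the cap is a sum of relative traces from `P ∩ ker (ev c)` to `P`. -/
def StarP (S : Sys K Q B) {ι : Type} [Fintype ι] (ev : ι → (Q →ₗ[K] K)) (e : Matrix B B K)
    (P : Submodule K Q) (D : ℤ) : Prop :=
  ∃ g : ι → Matrix B B K,
    (∀ c, HasDeg S.deg (-2) (g c) ∧ Com S (P ⊓ LinearMap.ker (ev c)) (g c) ∧ e * g c * e = g c ∧
      (P ≤ LinearMap.ker (ev c) → g c = 0)) ∧
    ∀ q : ι → Q, (∀ c, ¬ P ≤ LinearMap.ker (ev c) → q c ∈ P ∧ ev c (q c) = 1) →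
      ∀ v, HomV S.deg D v → e.mulVec v = v → v = ∑ c, (Tr S (q c) (g c)).mulVec v

end defs

/-- The threshold `N - 4 n + 3`. -/
def thr (N n : ℕ) : ℤ := (N : ℤ) - 4 * n + 3

section TSys
variable {K Q : Type} [Field K] [CharP K 3] [AddCommGroup Q] [Module K Q]
  {ι : Type} [Fintype ι] [DecidableEq ι]

/-- `T(Z)` as a module over `R(Q)`; `ev c : Q → K` is the vector `c` of `Z` in the dual of `Q`. -/
noncomputable def TSys (ev : ι → (Q →ₗ[K] K)) : Sys K Q (St ι) where
  deg := sdeg
  act := mu.comp (LinearMap.pi ev)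
  comm := by intro p q; exact mu_comm _ _
  cube := by intro q; exact mu_cube _
  hdeg := by intro q s s' h; exact mu_deg _ s s' h

theorem TSys_act (ev : ι → (Q →ₗ[K] K)) (q : Q) : (TSys ev).act q = mu (fun c => ev c q) := rfl

theorem TSys_deg (ev : ι → (Q →ₗ[K] K)) : (TSys ev).deg = sdeg := rfl

/-- The main induction statement for `T(Z)`. -/
def Good (ev : ι → (Q →ₗ[K] K)) : Prop :=
  ∀ e, IsCap (TSys ev) e →
    LowA (TSys ev) e (thr (Fintype.card ι) (Module.finrank K Q)) ∧
    LowB (TSys ev) e (thr (Fintype.card ι) (Module.finrank K Q))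

end TSys

section kr
variable {K : Type} [Field K] {ι ι₁ ι₂ : Type}

/-- Tensor product of an operator on `T(ι₁)` and an operator on `T(ι₂)`, an operator on `T(ι)`. -/
def kr (σ : ι₁ ⊕ ι₂ ≃ ι) (A : Matrix (St ι₁) (St ι₁) K) (C : Matrix (St ι₂) (St ι₂) K) :
    Matrix (St ι) (St ι) K :=
  fun s s' => A (fun i => s (σ (Sum.inl i))) (fun i => s' (σ (Sum.inl i))) *
    C (fun i => s (σ (Sum.inr i))) (fun i => s' (σ (Sum.inr i)))

end kr

end Pool.Agent.ABC3
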