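import Pool.Agent.ABC3.Defs

set_option autoImplicit false

/-!
# Four bases in characteristic 3 contain an AT-basis (squad ABC3, problem MP_4e0dfc_co)

Notation. `K` field of characteristic 3, `Q` finite dimensional over `K` (`V = Q^*`), `Z` = family of vectors
`ev c : Q → K` (`c ∈ ι`) of `V`, `T = T(Z) = K[t_c]/(t_c^2)` with basis `St ι` (subsets), `q ∈ Q` acts on `T` by
multiplication by `Σ_c ev c q • t_c`; all these operators commute and have cube 0 (char 3).
For a submodule `P` of `Q` and an operator `g` on `T` commuting with `P ∩ ker (ev c)`, and `q ∈ P` with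
`ev c q = 1`, the relative trace is `Tr q g = q q g + q g q + g q q = [q,[q,g]]`; it commutes with `P`.
`IsCap S e`: `e` is an idempotent endomorphism (degree 0, commuting with `Q`) with nonzero trace which is
minimal: `e = α f β` for every endomorphism `f` with nonzero trace.

THE PROOF. (1) EPT: every endomorphism of `T` is scalar + relative traces from the hyperplanes `ker (ev c)`; so the
trace divided by `2^N` is a ring homomorphism `χ` (CHI), there is a cap `e` (CPX), `1 - e` is a sum of relative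
traces (RPJ), and `im e` has no free summand (ANN).
(2) MAIN (Good): the cap of `T(Z)` vanishes in degrees `d` with `2d < N - 4n + 3` (LowA), and has no linear
relation in degree `d` if `2d = N - 4n + 3` (LowB). Induction on `n`, then on `N`:
STR: for a proper non-zero `P` let `X` = vectors of `Z` vanishing on `P`, `Y` = the others; `T(Z) = T(X) ⊗ T(Y)`;
`e_X ⊗ 1` is an endomorphism with nonzero trace, so `e = α (e_X ⊗ 1) β`, and over `P` the operator `1 ⊗ (1 - e_Y)` is a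
sum of relative traces, whereas `e_X ⊗ e_Y` kills everything in degree `D` if `2D < t(X) + t(Y) = t(Z) + 3`.
So in degrees `D` with `2D < t(Z) + 3` the identity of `im e` is a sum of relative traces to `P`.
BZE, BON: hence (descending induction over `P`) the cap of `Z' = Z - a` is free over `P = ker (ev a)` in the bottom
degrees; STA, STB: so `(e' ⊗ 1) T(Z)` has no bad element in the new degree.
(3) ATT: `1 ∈ T(Z)_0` is not in the cap; so if `Π·1 = 0` then `Π_{ker (ev c)}·1 = 0` for some `c`: induction.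
-/

namespace Pool.Agent.ABC3

open Matrix

/-- KRS (done in Kit): properties of the tensor product of operators. -/
def KRSStmt : Prop := ∀ (K : Type) [Field K] (ι ι₁ ι₂ : Type) [Fintype ι] [DecidableEq ι]
    [Fintype ι₁] [DecidableEq ι₁] [Fintype ι₂] [DecidableEq ι₂] (σ : ι₁ ⊕ ι₂ ≃ ι),
  (∀ (A A' : Matrix (St ι₁) (St ι₁) K) (C C' : Matrix (St ι₂) (St ι₂) K),
    kr σ A C * kr σ A' C' = kr σ (A * A') (C * C')) ∧
  kr σ 1 1 = (1 : Matrix (St ι) (St ι) K) ∧
  (∀ (A : Matrix (St ι₁) (St ι₁) K) (C : Matrix (St ι₂) (St ι₂) K),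
    Matrix.trace (kr σ A C) = Matrix.trace A * Matrix.trace C) ∧
  (∀ s : St ι, sdeg s = sdeg (fun i => s (σ (Sum.inl i))) + sdeg (fun i => s (σ (Sum.inr i)))) ∧
  (∀ w : ι → K, mu w = kr σ (mu (fun i => w (σ (Sum.inl i)))) 1 +
    kr σ 1 (mu (fun i => w (σ (Sum.inr i))))) ∧
  (∀ (k l : ℤ) (A : Matrix (St ι₁) (St ι₁) K) (C : Matrix (St ι₂) (St ι₂) K),
    HasDeg sdeg k A → HasDeg sdeg l C → HasDeg sdeg (k + l) (kr σ A C))

/-- TRC: elementary properties of relative traces (for any `Sys`).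
(1) trace of `Tr q g` is `3 · trace (q q g) = 0`. (2) if `g` commutes with `P ∩ ker l`, `q ∈ P`, `l q = 1`, then
`Tr q g` commutes with `P`: write `p = (l p) q + p'`, `p' ∈ P ∩ ker l`; `[q, Tr q g] = q^3 g - g q^3 = 0` (char 3).
(3) degrees. (4) `A (Tr q g) B = Tr q (A g B)` if `A`, `B` commute with `q`. (5) independence of `q`:
`q' = q + p'`, `p' ∈ P ∩ ker l`, expand, `p'` commutes with `g` and with `q`, coefficients 3. (6) additivity. -/
def TRCStmt : Prop := ∀ (K Q B : Type) [Field K] [CharP K 3] [AddCommGroup Q] [Module K Q]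
    [Fintype B] [DecidableEq B] (S : Sys K Q B),
  (∀ q g, Matrix.trace (Tr S q g) = 0) ∧
  (∀ (P : Submodule K Q) (l : Q →ₗ[K] K) q g, Com S (P ⊓ LinearMap.ker l) g → q ∈ P → l q = 1 →
    Com S P (Tr S q g)) ∧
  (∀ (k : ℤ) q g, HasDeg S.deg k g → HasDeg S.deg (k + 2) (Tr S q g)) ∧
  (∀ q (A g C : Matrix B B K), S.act q * A = A * S.act q → S.act q * C = C * S.act q →
    A * Tr S q g * C = Tr S q (A * g * C)) ∧
  (∀ (P : Submodule K Q) (l : Q →ₗ[K] K) q q' g, Com S (P ⊓ LinearMap.ker l) g → q ∈ P → q' ∈ P →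
    l q = 1 → l q' = 1 → Tr S q g = Tr S q' g) ∧
  (∀ q g g', Tr S q (g + g') = Tr S q g + Tr S q g')

/-- EPT: every endomorphism of degree 0 of `T(Z)` is a scalar plus relative traces.
Induction on `card ι`. If some `ev c = 0` there is nothing to prove (`a = 0`, `g = 0`: the last clause is vacuous).
`ι` empty: `St ι` has one element, every matrix is scalar. Step: `σ : ι' ⊕ Unit ≃ ι`, `c₀ = σ (inr ())`. Write an
operator `f` on `T(Z) = T(Z') ⊗ K[t]/(t^2)` as a 2x2 block matrix `(f00, f01; f10, f11)` over operators of `T(Z')`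
(`x = x_0 + t x_1`), so `q` acts as `(q, 0; ev q, q)`. Commutation of `f` with all `q` says:
`[q,f01] = 0`, `[q,f00] = (ev q) f01`, `[q,f11] = -(ev q) f01`, `[q,f10] = (ev q)(f11 - f00)` (ev = ev c₀).
Put `φ = -(f00 + f11)` (= (f00+f11)/2); it commutes with all `q` and has degree 0, so by induction
`φ = a + Σ Tr(q_c)(g_c)`, hence `φ ⊗ 1 = a + Σ Tr(q_c)(g_c ⊗ 1)`. And `f - φ ⊗ 1 = Tr(q)(0, f10; 0, 0)` for every `q` with
`ev q = 1`: `Tr (q) (0,ψ;0,0) = ([q,ψ], q²ψ+qψq+ψq²; ψ, -[q,ψ])`, with `ψ = f10` of degree -1 (so that `(0,ψ;0,0)` has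
degree -2), commuting with `ker ev`. -/
def EPTStmt : Prop := ∀ (K Q : Type) [Field K] [CharP K 3] [AddCommGroup Q] [Module K Q]
    (ι : Type) [Fintype ι] [DecidableEq ι] (ev : ι → (Q →ₗ[K] K)), EP (TSys ev) ev

/-- CHI: `EP` implies that the trace is multiplicative. `f = a + Σ Tr(q_c)(g_c)` (choose `q_c` with `ev c q_c = 1`), so
`trace f = a · trace 1` and `f f' = a f' + Σ Tr(q_c)(g_c f')` (`f'` commutes with `Q`), so `trace (f f') = a trace f'`. -/
def CHIStmt : Prop := ∀ (K Q B : Type) [Field K] [CharP K 3] [AddCommGroup Q] [Module K Q]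
    [Fintype B] [DecidableEq B] (S : Sys K Q B) (ι : Type) [Fintype ι] (ev : ι → (Q →ₗ[K] K)),
  EP S ev → (∀ c, ev c ≠ 0) → Matrix.trace (1 : Matrix B B K) ≠ 0 → Chi S

/-- TR1: `trace 1 = 2^N ≠ 0` on `T(Z)`. -/
def TR1Stmt : Prop := ∀ (K : Type) [Field K] [CharP K 3] (ι : Type) [Fintype ι] [DecidableEq ι],
  Matrix.trace (1 : Matrix (St ι) (St ι) K) ≠ 0

/-- CPX: existence of the cap. Among the idempotents `e` (degree 0, commuting with `Q`) with `trace e ≠ 0` (e.g.
`e = 1`) take one of minimal rank. Let `f` have `trace f ≠ 0`, `u = e f e`. By `Chi`, `trace u ≠ 0`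
(`trace e = trace 1` since `(trace e)^2 = trace e · trace 1`). Fitting: there is a polynomial `h` with zero constant
term such that `p = h(u)` is idempotent, `u` is nilpotent on `ker p` and `p = u w = w u` with `w` a polynomial in `u`
(minimal polynomial `X^k g(X)`, `g(0) ≠ 0`, Bezout). `trace p ≠ 0`: else `trace (1-p) = trace 1` and
`u^k (1-p) = 0` for some `k` gives, by `Chi`, `0 = trace(u^k (1-p)) (tr 1)^k = (trace u)^k trace (1-p) ≠ 0`.
`p = e p = p e`, `im p ⊆ im e`, minimality: `rank p = rank e`, so `p = e`. Then `e = u w = e f (e w)`. Polynomials in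
`u` times `e` have degree 0 and commute with `Q`. (For nilpotent: `trace` of a nilpotent matrix is 0 also works.) -/
def CPXStmt : Prop := ∀ (K Q B : Type) [Field K] [AddCommGroup Q] [Module K Q]
    [Fintype B] [DecidableEq B] (S : Sys K Q B), Chi S → ∃ e, IsCap S e

/-- RPJ: `1 - e` is a sum of relative traces. `e = a + Σ Tr(q_c)(g_c)` by `EP`; `trace e = a trace 1`, and `Chi` with
`e e = e`: `trace e · trace 1 = (trace e)^2`, `trace e ≠ 0`, so `a = 1`; take `-g_c`. -/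
def RPJStmt : Prop := ∀ (K Q B : Type) [Field K] [CharP K 3] [AddCommGroup Q] [Module K Q]
    [Fintype B] [DecidableEq B] (S : Sys K Q B) (ι : Type) [Fintype ι] (ev : ι → (Q →ₗ[K] K)),
  EP S ev → (∀ c, ev c ≠ 0) → Chi S → ∀ e, IsCap S e →
  ∃ g : ι → Matrix B B K, (∀ c, HasDeg S.deg (-2) (g c) ∧ Com S (LinearMap.ker (ev c)) (g c)) ∧
    ∀ q : ι → Q, (∀ c, ev c (q c) = 1) → 1 - e = ∑ c, Tr S (q c) (g c)

/-- ANN: the cap has no free summand. Let `v ∈ im e` be homogeneous of degree `d`, `n = dim Q ≥ 1`, and suppose a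
product of `2n` elements of `Q` does not kill `v`. Then (SQR below, take it as hypothesis or reprove) for a basis
`b_1..b_n` of `Q`: `Π = ∏ b_i^2`, `Π v ≠ 0`. Choose a basis element `s₀` with `(Π v) s₀ ≠ 0` (its degree is
`d + 2n`), `g₀ = (1/(Πv)(s₀)) v ⊗ (coordinate s₀)`, i.e. `g₀ x = x(s₀)/(Πv)(s₀) • v`, of degree `-2n`, and
`f = Tr(b_1)(Tr(b_2)(...Tr(b_n)(g₀)))`. `f` has degree 0, commutes with every `b_i`, hence with `Q`, and trace 0
(TRC, n ≥ 1). `Tr(b)(g) = Σ_a b^a g b^{2-a}`, so `f = Σ_m m g₀ m^∨` over the monomials `m` with exponents `≤ 2`,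
`m^∨ = ∏ b_i^{2-a_i}`; so `f v = v` because `(m^∨ v)(s₀) = 0` unless `m = 1` (degrees; HasDeg bookkeeping: `m^∨ v` has
degree `d + 2n - |m|`). (Easier bookkeeping: show by induction on the list of the `b_i` that
`f v = v + Σ (terms x_j with x_j = b_i(..) and coordinate zero)`; or: `Tr(b)(g) v = g b² v + b g b v + b² g v`, prove by
induction that if `g` has degree `k` and `g` kills all homogeneous vectors of degree `≠ d+2n`... ) Then
`f' = e - e f e` has `trace f' = trace e ≠ 0` (Chi), so `e = α f' β`; `f' = f' e`, so `x ↦ f' x` is surjective from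
`im e` to `im e` (for `y ∈ im e`: the map `y ↦ f' (e β y)` is injective on `im e`, hence bijective), hence injective, but
`f' v = v - e f v = 0`: so `v = 0`. -/
def ANNStmt : Prop := ∀ (K Q B : Type) [Field K] [CharP K 3] [AddCommGroup Q] [Module K Q]
    [FiniteDimensional K Q] [Fintype B] [DecidableEq B] (S : Sys K Q B),
  0 < Module.finrank K Q → Chi S → ∀ e, IsCap S e →
  ∀ (d : ℤ) v, HomV S.deg d v → e.mulVec v = v → AnnP S ⊤ v

/-- SQR: if the product of the squares of a basis kills `v` then every product of `2n` elements kills `v`: expand each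
factor in the basis; a product of `2n` basis elements has some exponent `≥ 3` (then it is 0 by `cube` and `comm`) or all
exponents equal to 2. -/
def SQRStmt : Prop := ∀ (K Q B : Type) [Field K] [AddCommGroup Q] [Module K Q]
    [Fintype B] [DecidableEq B] (S : Sys K Q B) (n : ℕ) (b : Module.Basis (Fin n) K Q) (v : B → K),
  ((List.ofFn (fun i => S.act (b i) * S.act (b i))).prod).mulVec v = 0 →
  ∀ l : List Q, l.length = 2 * n → ((l.map (fun p => S.act p)).prod).mulVec v = 0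

/-- QUO: if all vectors of `Z` vanish on `P`, the caps over `Q` and over `Q ⧸ P` are the same (`act q` only depends on
the class of `q`, so `Com _ ⊤` is the same condition). -/
def QUOStmt : Prop := ∀ (K Q : Type) [Field K] [CharP K 3] [AddCommGroup Q] [Module K Q]
    (ι : Type) [Fintype ι] [DecidableEq ι] (ev : ι → (Q →ₗ[K] K)) (P : Submodule K Q)
    (h : ∀ c, P ≤ LinearMap.ker (ev c)) (e : Matrix (St ι) (St ι) K),
  IsCap (TSys ev) e ↔ IsCap (TSys (fun c => P.liftQ (ev c) (h c))) e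

/-- `Good` holds for all families of non-zero vectors in dimensions `1 ≤ n' < n`. -/
def GoodBelow (K : Type) [Field K] [CharP K 3] (n : ℕ) : Prop :=
  ∀ (Q : Type) [AddCommGroup Q] [Module K Q] [FiniteDimensional K Q]
    (ι : Type) [Fintype ι] [DecidableEq ι] (ev : ι → (Q →ₗ[K] K)),
  (∀ c, ev c ≠ 0) → 0 < Module.finrank K Q → Module.finrank K Q < n → Good ev

/-- STR (uses EPT CHI TR1 CPX RPJ QUO TRC KRS). Let `X = {c | P ≤ ker (ev c)}`, `Y` the others, `σ : X ⊕ Y ≃ ι`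
(`Equiv.sumCompl`). Caps `e_X` of `T(X)` over `Q ⧸ P` (non-zero vectors `liftQ (ev c)`), equivalently over `Q` (QUO), and
`e_Y` of `T(Y)` over `P` (non-zero vectors `(ev c) ∘ P.subtype`) exist. `F = kr σ e_X 1` has degree 0, commutes with `Q`
(KRS: `mu w = kr (mu w_X) 1 + kr 1 (mu w_Y)`), trace `≠ 0`; so `e = α F β`. By RPJ over `P`:
`1 - e_Y = Σ_{c∈Y} Tr(q_c)(h_c)`, `q_c ∈ P`, so `kr 1 (1 - e_Y) = Σ Tr(q_c)(kr 1 h_c)` in `T(Z)` (for `q ∈ P`:
`act q = kr 1 (act_Y q)`). Put `g_c = e α F (kr 1 h_c) β e` for `c ∈ Y` and `0` for `c ∈ X`; it commutes with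
`P ∩ ker (ev c)`. For `v = e v` of degree `D`: `v = α F β v`, and `F = kr e_X (1-e_Y) + kr e_X e_Y`. The vector
`kr e_X e_Y (β v)` is homogeneous of degree `D` and is in the image of `kr e_X e_Y`; the columns (rows) of `e_X` in degrees
`2 g < thr |X| (n - dim P)` vanish (GoodBelow for `Q ⧸ P`), the rows of `e_Y` in degrees `2 h < thr |Y| (dim P)` vanish
(GoodBelow for `P`), and `thr |X| (n - dim P) + thr |Y| (dim P) = thr N n + 3 > 2 D`: so it is 0. Hence
`v = Σ α F Tr(q_c)(kr 1 h_c) β v = Σ Tr(q_c)(α F (kr 1 h_c) β) v`, and apply `e` on the left, `v = e v` on the right. -/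
def STRStmt : Prop := ∀ (K Q : Type) [Field K] [CharP K 3] [AddCommGroup Q] [Module K Q]
    [FiniteDimensional K Q] (ι : Type) [Fintype ι] [DecidableEq ι] (ev : ι → (Q →ₗ[K] K)),
  (∀ c, ev c ≠ 0) → GoodBelow K (Module.finrank K Q) → ∀ e, IsCap (TSys ev) e →
  ∀ P : Submodule K Q, P ≠ ⊥ → P ≠ ⊤ → ∀ D : ℤ,
    2 * D < thr (Fintype.card ι) (Module.finrank K Q) + 3 → StarP (TSys ev) ev e P D

/-- BZE. For every `P ≠ ⊤`: if `v ∈ im e` has degree `b+1` and all products of `2 dim P` elements of `P` kill `v`, then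
`v ∈ P · (im e)_b` (`im e` vanishes in degrees `< b`). Induction on `dim P`. `P = ⊥`: the empty product kills `v`: `v = 0`.
Otherwise take `g` from StarP and `q_c ∈ P` with `ev c q_c = 1` for `c` with `P ⊄ ker (ev c)`; `v = Σ_c Tr(q_c)(g_c) v =
Σ_c (q_c² g_c v + q_c g_c q_c v + g_c q_c² v)`. `g_c v ∈ im e` has degree `b - 1`, so it is 0. `g_c q_c v ∈ im e` has degree
`b`: the middle term is in `P · (im e)_b`. `v_c = g_c q_c² v ∈ im e` has degree `b+1` and is killed by all products of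
`2 dim P_c` elements of `P_c = P ∩ ker (ev c)` (`g_c` commutes with them; times `q_c²` they are products of `2 dim P`
elements of `P`, `dim P_c = dim P - 1`), so `v_c ∈ P_c · (im e)_b` by induction. (terms with `P ≤ ker (ev c)` are 0.) -/
def BZEStmt : Prop := ∀ (K Q B : Type) [Field K] [CharP K 3] [AddCommGroup Q] [Module K Q]
    [FiniteDimensional K Q] [Fintype B] [DecidableEq B] (S : Sys K Q B) (ι : Type) [Fintype ι]
    (ev : ι → (Q →ₗ[K] K)) (e : Matrix B B K) (b : ℤ),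
  e * e = e → HasDeg S.deg 0 e → Com S ⊤ e →
  (∀ d : ℤ, d < b → ∀ v, HomV S.deg d v → e.mulVec v = v → v = 0) →
  (∀ P : Submodule K Q, P ≠ ⊥ → P ≠ ⊤ → StarP S ev e P (b + 1)) →
  ∀ P : Submodule K Q, P ≠ ⊤ → ∀ v, HomV S.deg (b + 1) v → e.mulVec v = v → AnnP S P v →
    v ∈ LinearMap.range (mulMap S P (Cd S e b))

/-- BON. For every `P ≠ ⊤` the multiplication `P ⊗ (im e)_b → T` is injective (`im e` zero in degrees `< b`).
Induction on `dim P`; `P = ⊥` trivial. Let `ω ∈ P ⊗ C`, `C = (im e)_b`, `m(ω) = 0`. For `u ∈ C`: `g_c u = 0` and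
`g_c q_c u = 0` (degrees `b-2`, `b-1`, in `im e`), so StarP says `u = Σ_c φ_c u`, `φ_c = g_c q_c² : C → C`. Hence
`ω = Σ_c (1 ⊗ φ_c) ω`. Fix `c` (with `P ⊄ ker (ev c)`), `P_c = P ∩ ker (ev c)`, `π_c : P → P_c`, `π_c p = p - (ev c p) q_c`.
With `u_c = (ev c ⊗ 1) ω ∈ C`: `(1 ⊗ φ_c) ω = (incl ∘ π_c ⊗ φ_c) ω + q_c ⊗ φ_c u_c`, and `0 = m(ω) = m((π_c ⊗ 1) ω) + q_c u_c`.
`q_c² u_c = - m((π_c ⊗ q_c) ω)`, so `φ_c u_c = - m((π_c ⊗ g_c q_c) ω) = 0` as `g_c` commutes with `P_c` and `g_c q_c = 0` on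
`C`. And `ω_c = (π_c ⊗ φ_c) ω ∈ P_c ⊗ C` has `m(ω_c) = g_c q_c² m((π_c ⊗ 1) ω) = - g_c q_c³ u_c = 0`, so `ω_c = 0` by
induction. So `ω = 0`. -/
def BONStmt : Prop := ∀ (K Q B : Type) [Field K] [CharP K 3] [AddCommGroup Q] [Module K Q]
    [FiniteDimensional K Q] [Fintype B] [DecidableEq B] (S : Sys K Q B) (ι : Type) [Fintype ι]
    (ev : ι → (Q →ₗ[K] K)) (e : Matrix B B K) (b : ℤ),
  e * e = e → HasDeg S.deg 0 e → Com S ⊤ e →
  (∀ d : ℤ, d < b → ∀ v, HomV S.deg d v → e.mulVec v = v → v = 0) →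
  (∀ P : Submodule K Q, P ≠ ⊥ → P ≠ ⊤ → StarP S ev e P b) →
  ∀ P : Submodule K Q, P ≠ ⊤ → Function.Injective (mulMap S P (Cd S e b))

/-- STA (uses BZE KRS ANN TRC CHI EPT TR1). `Z = Z' + a`, `a = ev (σ (inr ()))`, `T(Z) = T(Z') ⊗ K[t]/(t²)`, `e'` cap of
`T(Z')`, `F = kr σ e' 1` has nonzero trace, `e = α F β`. Let `2 d < t(Z) = t' + 1` (`t' = t(Z')`), `v = e v` of degree `d`.
`w = F β v = u_0 + t u_1` with `u_0, u_1 ∈ im e'` of degrees `d`, `d - 1`; `v = α w`, so it suffices that `w = 0`. `2(d-1) < t'`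
so `u_1 = 0` (LowA of `e'`). If `2d < t'` also `u_0 = 0`. So let `2 d = t'`. By ANN all products of `2n` elements of `Q`
kill `v`, hence `w = u_0 ⊗ 1` (F, β commute with `Q`). Take `q_a` with `a(q_a) = 1`, `P = ker a ≠ ⊤`, `dim P = n - 1`. For
`p_1..p_{2n-2} ∈ P`: `p_1 ... p_{2n-2} q_a q_a (u_0 ⊗ 1)` has `t`-coefficient `2 p_1 ... p_{2n-2} q_a u_0` (`P` acts only on
`T(Z')`), so `q_a u_0` is killed by all products of `2 dim P` elements of `P` (in `T(Z')`), it is in `im e'` of degree `d+1`.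
BZE (with `b = d`, StarP from STR: `2(d+1) = t' + 2 < t' + 3`) gives `q_a u_0 = Σ p_i w_i`, `p_i ∈ P`, `w_i ∈ (im e')_d`.
Then `q_a ⊗ u_0 - Σ p_i ⊗ w_i` is in the kernel of `⊤ ⊗ (im e')_d → T`, so it is 0 by LowB of `e'`; apply `a ⊗ 1`: `u_0 = 0`. -/
def STAStmt : Prop := ∀ (K Q : Type) [Field K] [CharP K 3] [AddCommGroup Q] [Module K Q]
    [FiniteDimensional K Q] (ι ι' : Type) [Fintype ι] [DecidableEq ι] [Fintype ι'] [DecidableEq ι']
    (σ : ι' ⊕ Unit ≃ ι) (ev : ι → (Q →ₗ[K] K)),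
  (∀ c, ev c ≠ 0) → 0 < Module.finrank K Q → Good (fun i => ev (σ (Sum.inl i))) →
  (∀ e', IsCap (TSys (fun i => ev (σ (Sum.inl i)))) e' → ∀ P : Submodule K Q, P ≠ ⊥ → P ≠ ⊤ → ∀ D : ℤ,
    2 * D < thr (Fintype.card ι') (Module.finrank K Q) + 3 →
    StarP (TSys (fun i => ev (σ (Sum.inl i)))) (fun i => ev (σ (Sum.inl i))) e' P D) →
  ∀ e, IsCap (TSys ev) e → LowA (TSys ev) e (thr (Fintype.card ι) (Module.finrank K Q))

/-- STB (uses BON KRS CPX CHI EPT TR1). Same set-up, now `2 d = t(Z) = t' + 1`; `2(d-1) < t'`, so `im e'` vanishes in degrees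
`≤ d - 1` and for `v ∈ (im e)_d`: `F β v = j(v) ⊗ 1` with `j(v) ∈ (im e')_d`, `v = α (j(v) ⊗ 1)`: `j` is injective and linear. Let
`ω ∈ ⊤ ⊗ (im e)_d`, `m(ω) = 0`, `ω_0 = (1 ⊗ j) ω`. Applying `F β`: `0 = Σ q_i (j(v_i) ⊗ 1)` = `(Σ q_i j(v_i)) + t Σ a(q_i) j(v_i)`: so
`m(ω_0) = 0` and `(a ⊗ 1) ω_0 = 0`. With `π q = q - a(q) q_a ∈ P = ker a`: `ω_0 = (incl ∘ π ⊗ 1) ω_0`, `ω_1 = (π ⊗ 1) ω_0 ∈ P ⊗ (im e')_d`,
`m(ω_1) = 0`, so `ω_1 = 0` by BON (`b = d`: `2 d = t' + 1 < t' + 3`), `ω_0 = 0`, `ω = 0` (`1 ⊗ j` is injective). -/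
def STBStmt : Prop := ∀ (K Q : Type) [Field K] [CharP K 3] [AddCommGroup Q] [Module K Q]
    [FiniteDimensional K Q] (ι ι' : Type) [Fintype ι] [DecidableEq ι] [Fintype ι'] [DecidableEq ι']
    (σ : ι' ⊕ Unit ≃ ι) (ev : ι → (Q →ₗ[K] K)),
  (∀ c, ev c ≠ 0) → 0 < Module.finrank K Q → Good (fun i => ev (σ (Sum.inl i))) →
  (∀ e', IsCap (TSys (fun i => ev (σ (Sum.inl i)))) e' → ∀ P : Submodule K Q, P ≠ ⊥ → P ≠ ⊤ → ∀ D : ℤ,
    2 * D < thr (Fintype.card ι') (Module.finrank K Q) + 3 →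
    StarP (TSys (fun i => ev (σ (Sum.inl i)))) (fun i => ev (σ (Sum.inl i))) e' P D) →
  ∀ e, IsCap (TSys ev) e → LowB (TSys ev) e (thr (Fintype.card ι) (Module.finrank K Q))

/-- IND (uses STR STA STB): `Good` for all families of non-zero vectors, `dim Q ≥ 1`. Strong induction on `n = dim Q` (so
`GoodBelow K n`), then on `card ι` (all `Q` with this `n`). `ι` empty: `thr 0 n = 3 - 4n < 0` and `St ι` has only degree 0, so
LowA; `2 d = 3 - 4 n` is impossible (parity), so LowB. Otherwise choose `a ∈ ι`, `ι' = {c // c ≠ a}`, `σ : ι' ⊕ Unit ≃ ι`. -/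
def INDStmt : Prop := ∀ (K : Type) [Field K] [CharP K 3] (n : ℕ), GoodBelow K n

/-- ATT (uses IND EPT CHI TR1 CPX RPJ KRS): the main theorem in the language of `T(Z)`. Induction on `n = dim Q` (for all
`Q`, `ι`). `n = 0`: `l = []`. `n ≥ 1`: let `e` be a cap. `e` maps `T_0 = K·vac` to itself, `e vac = λ vac`, `λ² = λ`. If `λ = 1`,
LowA with `d = 0` (`0 < thr N n` by the hypothesis with `P = ⊤`: `4 n ≤ N + 2`) gives `vac = 0`, contradiction. So `e vac = 0` and
by RPJ `vac = (1 - e) vac = Σ_c Tr(q_c)(g_c) vac = Σ_c g_c q_c² vac` (the other terms have negative degree), so for some `c`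
`g_c q_c² vac = μ vac`, `μ ≠ 0`. `P = ker (ev c)`, `dim P = n - 1`. By induction for the family `Y = {c' | ¬ P ≤ ker (ev c')}` on `P`
(the hypothesis holds for subspaces of `P`) there is `l` in `P` of length `2(n-1)` with product not killing `vac_Y`; in `T(Z)` the
product of `l` is `kr σ 1 (product in T(Y))`, so it does not kill `vac` (KRS, `σ : X ⊕ Y ≃ ι`). Now
`g_c (∏ l) q_c q_c vac = (∏ l) g_c q_c² vac = μ (∏ l) vac ≠ 0`, so `(∏ l) q_c q_c vac ≠ 0`: take `l ++ [q_c, q_c]`. -/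
def ATTStmt : Prop := ∀ (K Q : Type) [Field K] [CharP K 3] [AddCommGroup Q] [Module K Q]
    [FiniteDimensional K Q] (ι : Type) [Fintype ι] [DecidableEq ι] (ev : ι → (Q →ₗ[K] K)),
  (∀ c, ev c ≠ 0) →
  (∀ P : Submodule K Q, P ≠ ⊥ → 4 * Module.finrank K P ≤ Nat.card {c // ¬ P ≤ LinearMap.ker (ev c)} + 2) →
  ∃ l : List Q, l.length = 2 * Module.finrank K Q ∧
    ((l.map (fun p => (TSys ev).act p)).prod).mulVec (Pi.single (fun _ => false) 1) ≠ 0

/-- PER: the product of the squares of the rows is a sum of permanents. In general for `w : Fin m → ι → K` the `s`-coordinate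
of `mu (w 0) ... mu (w (m-1)) vac` is the sum over the injective `f : Fin m → ι` with image `{c | s c = true}` of `∏ w_j (f j)`
(induction on `m`), so if it is nonzero then `card = m` and for a bijection `g : Fin m ≃ {c // s c = true}` it is the permanent
of `(i, j) ↦ w i (g j)`. Apply with `m = 2 n` and each row twice. -/
def PERStmt : Prop := ∀ (K : Type) [Field K] (n : ℕ) (ι : Type) [Fintype ι] [DecidableEq ι]
    (Y : Matrix (Fin n) ι K),
  ((List.ofFn (fun i => mu (Y i) * mu (Y i))).prod).mulVec (Pi.single (fun _ => false) 1) ≠ 0 →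
  ∃ f : Fin 2 × Fin n → ι, Function.Injective f ∧
    Matrix.permanent (Matrix.of (fun (r c : Fin 2 × Fin n) => Y r.2 (f c))) ≠ 0

/-- GEN (uses ATT SQR PER): any family of columns such that every proper subspace `U` misses at least `4 codim U - 2` of them
contains an AT-basis. Drop the zero columns (`ι' = {c // column c ≠ 0}`; they lie in every `U`), `Q = Fin n → K`,
`ev c q = Σ_r q r * Y r c`; for `P ≤ Q`, `P ≠ ⊥`, let `U = {x | ∀ p ∈ P, Σ p r x r = 0}`, `dim U = n - dim P`, `U ≠ ⊤`, and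
column `c ∉ U` iff `¬ P ≤ ker (ev c)`. ATT, then SQR for the standard basis, `act (e_i) = mu (Y i)`, PER, and include `ι' → ι`. -/
def GENStmt : Prop := ∀ (K : Type) [Field K] [CharP K 3] (n : ℕ) (ι : Type) [Fintype ι] [DecidableEq ι]
    (Y : Matrix (Fin n) ι K),
  (∀ U : Submodule K (Fin n → K), U ≠ ⊤ →
    4 * n ≤ Nat.card {c // (fun r => Y r c) ∉ U} + 4 * Module.finrank K U + 2) →
  ∃ f : Fin 2 × Fin n → ι, Function.Injective f ∧
    Matrix.permanent (Matrix.of (fun (r c : Fin 2 × Fin n) => Y r.2 (f c))) ≠ 0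

/-- FOU (uses GEN): four invertible matrices. `ι = Fin 4 × Fin n`; a proper subspace `U` contains at most `dim U` columns of
each `B j` (linearly independent), so it misses at least `n - dim U` columns of each. -/
def FOUStmt : Prop := ∀ (K : Type) [Field K] [CharP K 3] (n : ℕ) (B : Fin 4 → Matrix (Fin n) (Fin n) K),
  (∀ j, (B j).det ≠ 0) →
  ∃ f : Fin 2 × Fin n → Fin 4 × Fin n, Function.Injective f ∧
    Matrix.permanent (Matrix.of (fun (r c : Fin 2 × Fin n) => B (f c).1 r.2 (f c).2)) ≠ 0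

/-- ADD (uses nothing): an AT-basis over `ZMod 3` is an additive basis for all lists of size 2: if the permanent of
`(r, c) ↦ Y r.2 (f c)` is nonzero then for all `x : Fin 2 × Fin n → ZMod 3 × ZMod 3` with different components and every target
`y` there is a choice `s` of components with `Σ_c Y r (f c) • s_c = y r` for all `r`. Combinatorial Nullstellensatz:
the polynomial `∏_r ((Σ_c Y r (f c) X_c - y_r)² - 1)` of degree `2n` in `2n` variables has coefficient `permanent` at `∏ X_c`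
(each factor is 0 unless `Σ = y_r`). (Mathlib: `MvPolynomial.combinatorial_nullstellensatz_exists_eval_nonzero` or similar; or
direct: `Σ_{s} (±) F(s)` over the cube = permanent times `∏ (x_c.1 - x_c.2)`.) -/
def ADDStmt : Prop := ∀ (n : ℕ) (A : Matrix (Fin n) (Fin 2 × Fin n) (ZMod 3)),
  Matrix.permanent (Matrix.of (fun (r c : Fin 2 × Fin n) => A r.2 c)) ≠ 0 →
  ∀ (x : Fin 2 × Fin n → Fin 2 → ZMod 3), (∀ c, x c 0 ≠ x c 1) → ∀ y : Fin n → ZMod 3,
    ∃ s : Fin 2 × Fin n → Fin 2, ∀ r, ∑ c, A r c * x c (s c) = y r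

end Pool.Agent.ABC3
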